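import Pool.Agent.U174.AO.Stm
import Pool.Agent.U88.AK.LT

/-!
# Project AO, package LTS: the lifting theorem with prescribed images of the section

The proof is that of `Pool.Agent.U88.AK.t_LT` (project AK, helper88); the section `t` is given here.
-/

set_option autoImplicit false

namespace Pool.Agent.U653.AO

open Pool.Agent.U174.AK Pool.Agent.U174.AO Pool.Agent.U88.AK IsLocalRing

theorem t_LTS : S_RES → S_VAL → S_IMM → S_LTS := by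
  intro hRES hVAL hIMM F F' L _ _ _ OF O' P s s' ι j ρ ν hcount hhen hchar hbig hν hs hs' hss hρ hν' t
    ht2' ht1'
  classical
  -- the start
  let e : F ≃+* ι.f.fieldRange := RingEquiv.ofBijective ι.f.rangeRestrictField ι.f.rangeRestrictField_bijective
  let g₀ : ι.f.fieldRange →+* L := j.f.comp (e.symm : ι.f.fieldRange →+* F)
  have hg₀ : ∀ (a : F) (h : ι.f a ∈ ι.f.fieldRange), g₀ ⟨ι.f a, h⟩ = j.f a := by
    intro a h
    have h1 : e a = ⟨ι.f a, h⟩ := rfl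
    show j.f (e.symm ⟨ι.f a, h⟩) = j.f a
    rw [← h1, RingEquiv.symm_apply_apply]
  have hmem₀ : ∀ a : F, ι.f a ∈ ι.f.fieldRange := fun a => ⟨a, rfl⟩
  have hpart₀ : Part O' P ρ ν ι.f.fieldRange g₀ := by
    refine ⟨fun x => ?_, fun x => ?_⟩
    · obtain ⟨x, hx⟩ := x
      obtain ⟨a, rfl⟩ := RingHom.mem_fieldRange.1 hx
      have h1 : P.valuation (j.f a) = ν (O'.valuation (ι.f a)) := by
        rw [← j.val_valuation, ← hν', ι.val_valuation]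
      rw [← h1]
      exact congrArg _ (hg₀ a hx)
    · obtain ⟨x, hx⟩ := x
      obtain ⟨a, rfl⟩ := RingHom.mem_fieldRange.1 hx
      have h1 : rs P (j.f a) = ρ (rs O' (ι.f a)) := by
        rw [← j.res_rs, ← hρ, ι.res_rs]
      rw [← h1]
      exact congrArg _ (hg₀ a hx)
  -- step 1
  obtain ⟨E₁, g₁, hx₁, ⟨hp₁, hv₁⟩, hmax₁⟩ := zorn (F := F') (L := L)
    (fun E g => Part O' P ρ ν E g ∧ ∀ x ∈ E, ∃ y ∈ ι.f.fieldRange, O'.valuation x = O'.valuation y)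
    (fun c hc hT E g h h' => ⟨part_union c (fun p hp => (hT p hp).1) E g h h', fun x hx => by
      obtain ⟨p, hp, hxp⟩ := h' x hx
      exact (hT p hp).2 x hxp⟩) ι.f.fieldRange g₀ ⟨hpart₀, fun x hx => ⟨x, hx, rfl⟩⟩
  have hres₁ : ∀ r, ∃ x ∈ E₁, x ∈ O' ∧ rs O' x = r := by
    intro r
    obtain ⟨E', g', h1, h2, ⟨x, hx, hxO, hxr⟩, h3⟩ := hRES F' L O' P ρ ν hhen hbig.hen hchar hν E₁ g₁ hp₁ r
    refine ⟨x, hmax₁ E' g' h1 ⟨h2, fun y hy => ?_⟩ hx, hxO, hxr⟩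
    obtain ⟨z, hz, hyz⟩ := h3 y hy
    obtain ⟨w, hw, hzw⟩ := hv₁ z hz
    exact ⟨w, hw, hyz.trans hzw⟩
  -- the section
  let u : OF.ValueGroupˣ →* O'.ValueGroupˣ := Units.map (ι.val : OF.ValueGroup →* O'.ValueGroup)
  have hu : ∀ γ, ((u γ : O'.ValueGroupˣ) : O'.ValueGroup) = ι.val γ := fun γ => rfl
  have hH : ∀ (γ : O'.ValueGroupˣ) (δ : OF.ValueGroup), ι.val δ = γ → γ ∈ u.range := by
    intro γ δ h
    have h0 : δ ≠ 0 := by
      rintro rfl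
      rw [map_zero] at h
      exact γ.ne_zero h.symm
    refine ⟨Units.mk0 δ h0, Units.ext ?_⟩
    rw [hu]
    exact h
  -- values of E₁
  have hval₁ : ∀ γ : O'.ValueGroupˣ, (∃ x ∈ E₁, O'.valuation x = γ) → ∃ δ : OF.ValueGroupˣ, u δ = γ := by
    rintro γ ⟨x, hx, hxγ⟩
    obtain ⟨_, ⟨a, rfl⟩, hy⟩ := hv₁ x hx
    have h1 : ι.val (OF.valuation a) = γ := by
      rw [ι.val_valuation, ← hxγ]
      exact hy.symm
    exact hH γ _ h1
  have hs'u : ∀ δ : OF.ValueGroupˣ, ((s' (u δ) : F'ˣ) : F') = ι.f ((s δ : Fˣ) : F) := fun δ => hss δ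
  -- step 2
  obtain ⟨E₂, g₂, hx₂, ⟨hp₂, hA₂, hB₂⟩, hmax₂⟩ := zorn (F := F') (L := L)
    (fun E g => Part O' P ρ ν E g ∧
      (∀ γ : O'.ValueGroupˣ, (∃ x ∈ E, O'.valuation x = γ) → ((s' γ : F'ˣ) : F') ∈ E) ∧
      ∀ (γ : O'.ValueGroupˣ) (h : ((s' γ : F'ˣ) : F') ∈ E), g ⟨_, h⟩ = ((t γ : Lˣ) : L))
    (fun c hc hT E g h h' => ⟨part_union c (fun p hp => (hT p hp).1) E g h h', fun γ hγ => by
      obtain ⟨x, hx, hxγ⟩ := hγ
      obtain ⟨p, hp, hxp⟩ := h' x hx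
      exact (h p hp).1 ((hT p hp).2.1 γ ⟨x, hxp, hxγ⟩), fun γ hγ => by
      obtain ⟨p, hp, hxp⟩ := h' _ hγ
      rw [ext_apply (h p hp) hxp hγ]
      exact (hT p hp).2.2 γ hxp⟩) E₁ g₁ ⟨hp₁, fun γ hγ => by
      obtain ⟨δ, rfl⟩ := hval₁ γ hγ
      rw [hs'u]
      exact hx₁.1 (hmem₀ _), fun γ hγ => by
      obtain ⟨δ, rfl⟩ := hval₁ γ ⟨_, hγ, hs' γ⟩
      have h1 : ι.f ((s δ : Fˣ) : F) ∈ E₁ := hx₁.1 (hmem₀ _)
      have h2 : (⟨((s' (u δ) : F'ˣ) : F'), hγ⟩ : E₁) = ⟨ι.f ((s δ : Fˣ) : F), h1⟩ := Subtype.ext (hs'u δ)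
      rw [h2, ext_apply hx₁ (hmem₀ _) h1, hg₀]
      exact (ht1' δ).symm⟩
  have hval₂ : ∀ γ, ∃ x ∈ E₂, O'.valuation x = γ := by
    intro γ
    by_cases h0 : γ = 0
    · exact ⟨0, E₂.zero_mem, by rw [map_zero, h0]⟩
    · obtain ⟨E', g', h1, h2, h3, h4, h5⟩ := hVAL F' L O' P ρ ν hν s' t hs' ht2' E₂ g₂ hp₂ hA₂ hB₂ (Units.mk0 γ h0)
      refine ⟨_, hmax₂ E' g' h1 ⟨h2, h4, h5⟩ h3, ?_⟩
      rw [hs']
      rfl
  -- step 3
  obtain ⟨E₃, g₃, hx₃, hp₃, hmax₃⟩ := zorn (F := F') (L := L) (fun E g => Part O' P ρ ν E g)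
    (fun c hc hT E g h h' => part_union c hT E g h h') E₂ g₂ hp₂
  have htop : ∀ x : F', x ∈ E₃ := by
    intro x
    by_contra hx
    obtain ⟨E', g', h1, h2, z, hz, hz'⟩ := hIMM F' L O' P ρ ν hcount hhen hchar hbig hν E₃ g₃ hp₃
      (fun r => by
        obtain ⟨x, hx, hx'⟩ := hres₁ r
        exact ⟨x, hx₃.1 (hx₂.1 hx), hx'⟩)
      (fun γ => by
        obtain ⟨x, hx, hx'⟩ := hval₂ γ
        exact ⟨x, hx₃.1 hx, hx'⟩) x hx
    exact hz' (hmax₃ E' g' h1 h2 hz)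
  -- the embedding
  let f : F' →+* L := g₃.comp ((RingHom.id F').codRestrict E₃ htop)
  have hf : ∀ x, f x = g₃ ⟨x, htop x⟩ := fun x => rfl
  have hfv : ∀ x, P.valuation (f x) = ν (O'.valuation x) := fun x => hp₃.val ⟨x, htop x⟩
  have hfr : ∀ x, rs P (f x) = ρ (rs O' x) := fun x => hp₃.res ⟨x, htop x⟩
  let j' : VEmb O' P := ⟨f, fun x => by
    rw [← ValuationSubring.valuation_le_one_iff, ← ValuationSubring.valuation_le_one_iff, hfv]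
    conv_lhs => rw [← map_one ν]
    exact hν.le_iff_le⟩
  have hj' : ∀ x, j'.f x = f x := fun x => rfl
  refine ⟨j', fun x => ?_, fun r => ?_, fun γ => ?_, fun γ => ?_⟩
  · rw [hj', hf, ext_apply (ext_trans hx₁ (ext_trans hx₂ hx₃)) (hmem₀ x) (htop _), hg₀]
  · obtain ⟨x, -, rfl⟩ := rs_surj O' r
    rw [j'.res_rs, hj', hfr]
  · obtain ⟨x, rfl⟩ := O'.valuation_surjective γ
    rw [j'.val_valuation, hj', hfv]
  · have h1 : ((s' γ : F'ˣ) : F') ∈ E₂ := hA₂ γ (hval₂ γ)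
    rw [hj', hf, ext_apply hx₃ h1 (htop _), hB₂ γ h1]

end Pool.Agent.U653.AO
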